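import Mathlib

open Finset Matrix

namespace Pool.Agent.Results.MP_df5386_co.Slope

open Classical

/-- Laplacian `D - A` (out-degrees) of the digraph with arc relation `E`. -/
noncomputable def lap {V : Type} [Fintype V] (E : V → V → Prop) : Matrix V V ℝ :=
  Matrix.diagonal (fun i => ((univ.filter fun j => E i j).card : ℝ)) -
    Matrix.of fun i j => if E i j then 1 else 0

/-- the values `xᵀ L x` for real unit vectors `x ⊥ e`. -/
def vals {V : Type} [Fintype V] (E : V → V → Prop) : Set ℝ :=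
  {r | ∃ x : V → ℝ, ∑ i, x i = 0 ∧ ∑ i, x i ^ 2 = 1 ∧ r = x ⬝ᵥ (lap E *ᵥ x)}

/-- Laplacian spread `β - α`. -/
noncomputable def spread {V : Type} [Fintype V] (E : V → V → Prop) : ℝ :=
  sSup (vals E) - sInf (vals E)

section
variable {V : Type} [Fintype V]

lemma form (E : V → V → Prop) (x : V → ℝ) :
    x ⬝ᵥ (lap E *ᵥ x) = ∑ i, ∑ j, if E i j then x i * (x i - x j) else 0 := by
  unfold lap
  rw [Matrix.sub_mulVec, dotProduct_sub, dotProduct, dotProduct, ← Finset.sum_sub_distrib]
  refine Finset.sum_congr rfl fun i _ => ?_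
  rw [Matrix.mulVec_diagonal, Finset.card_filter]
  simp only [Matrix.mulVec, dotProduct, Matrix.of_apply]
  push_cast
  rw [Finset.sum_mul, Finset.mul_sum, Finset.mul_sum, ← Finset.sum_sub_distrib]
  refine Finset.sum_congr rfl fun j _ => ?_
  split_ifs <;> ring

lemma bdd (E : V → V → Prop) (r : ℝ) (hr : r ∈ vals E) :
    |r| ≤ ∑ _i : V, ∑ _j : V, (2 : ℝ) := by
  obtain ⟨x, _, h2, rfl⟩ := hr
  have hx : ∀ i, |x i| ≤ 1 := fun i => by
    have : x i ^ 2 ≤ ∑ j, x j ^ 2 :=
      Finset.single_le_sum (f := fun j => x j ^ 2) (fun j _ => sq_nonneg _) (mem_univ i)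
    rw [h2] at this
    exact (sq_le_one_iff_abs_le_one _).1 this
  rw [form]
  refine (Finset.abs_sum_le_sum_abs _ _).trans (Finset.sum_le_sum fun i _ => ?_)
  refine (Finset.abs_sum_le_sum_abs _ _).trans (Finset.sum_le_sum fun j _ => ?_)
  split_ifs
  · rw [abs_mul]
    have h1 := hx i
    have h3 : |x i - x j| ≤ 2 := (abs_sub _ _).trans (by have := hx j; linarith)
    nlinarith [abs_nonneg (x i), abs_nonneg (x i - x j)]
  · simp

lemma mem_vals (E : V → V → Prop) (y : V → ℝ) (h0 : ∑ i, y i = 0) (N : ℝ) (hN : 0 < N)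
    (h2 : ∑ i, y i ^ 2 = N) : (y ⬝ᵥ (lap E *ᵥ y)) / N ∈ vals E := by
  have hs : 0 < Real.sqrt N := Real.sqrt_pos.2 hN
  have hsq : Real.sqrt N * Real.sqrt N = N := Real.mul_self_sqrt hN.le
  refine ⟨(Real.sqrt N)⁻¹ • y, ?_, ?_, ?_⟩
  · simp [← Finset.mul_sum, h0]
  · simp only [Pi.smul_apply, smul_eq_mul, mul_pow, ← Finset.mul_sum, h2]
    rw [inv_pow, Real.sq_sqrt hN.le]
    field_simp
  · rw [Matrix.mulVec_smul, smul_dotProduct, dotProduct_smul, smul_eq_mul, smul_eq_mul,
      ← mul_assoc, ← mul_inv, hsq]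
    field_simp

lemma spread_ge (E : V → V → Prop) (a b : ℝ) (ha : a ∈ vals E) (hb : b ∈ vals E) :
    b - a ≤ spread E := by
  have h1 : b ≤ sSup (vals E) := le_csSup ⟨_, fun r hr => (le_abs_self r).trans (bdd E r hr)⟩ hb
  have h2 : sInf (vals E) ≤ a :=
    csInf_le ⟨_, fun r hr => (neg_le_neg (bdd E r hr)).trans (neg_abs_le r)⟩ ha
  unfold spread
  linarith

lemma spread_equiv {W : Type} [Fintype W] (e : W ≃ V) (E : V → V → Prop) :
    spread (fun i j => E (e i) (e j)) = spread E := by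
  have : vals (fun i j => E (e i) (e j)) = vals E := by
    ext r
    constructor
    · rintro ⟨x, h1, h2, rfl⟩
      refine ⟨x ∘ e.symm, ?_, ?_, ?_⟩
      · rw [← h1]; exact e.symm.sum_comp x
      · rw [← h2]; exact e.symm.sum_comp fun i => x i ^ 2
      · rw [form, form, ← e.sum_comp]
        refine Finset.sum_congr rfl fun i _ => ?_
        rw [← e.sum_comp]
        simp
    · rintro ⟨x, h1, h2, rfl⟩
      refine ⟨x ∘ e, ?_, ?_, ?_⟩
      · rw [← h1]; exact e.sum_comp x
      · rw [← h2]; exact e.sum_comp fun i => x i ^ 2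
      · rw [form, form, ← e.sum_comp]
        refine Finset.sum_congr rfl fun i _ => ?_
        rw [← e.sum_comp]
        simp
  unfold spread
  rw [this]

end

/-- one vertex pointing to everything, and all arcs from class `0` to class `1`. -/
def G (k : ℕ) : Option (Fin 3 × Fin k) → Option (Fin 3 × Fin k) → Prop
  | none, none => False
  | none, some _ => True
  | some _, none => False
  | some p, some q => p.1 = 0 ∧ q.1 = 1

lemma G_spread (k : ℕ) (hk : 1 ≤ k) : 3 * k + (k : ℝ) / 14 ≤ spread (G k) := by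
  have hk' : (0 : ℝ) < k := by exact_mod_cast hk
  have hb := mem_vals (G k) (fun i => i.elim (3 * k : ℝ) fun _ => -1)
    (by simp [Fintype.sum_option]) ((3 * k) * (3 * k + 1)) (by positivity)
    (by simp [Fintype.sum_option]; ring)
  have ha := mem_vals (G k) (fun i => i.elim (0 : ℝ) fun p => ![1, 2, -3] p.1)
    (by simp [Fintype.sum_option, Fintype.sum_prod_type, Fin.sum_univ_three]; ring)
    (14 * k) (by positivity)
    (by simp [Fintype.sum_option, Fintype.sum_prod_type, Fin.sum_univ_three]; ring)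
  have := spread_ge (G k) _ _ ha hb
  rw [form, form] at this
  simp [Fintype.sum_option, Fintype.sum_prod_type, Fin.sum_univ_three, G] at this
  have e1 : ((k : ℝ) * (3 * k * (3 * k + 1)) + k * (3 * k * (3 * k + 1))
      + k * (3 * k * (3 * k + 1))) / (3 * k * (3 * k + 1)) = 3 * k := by
    field_simp
    ring
  have e2 : (k : ℝ) * (k * (1 - 2)) / (14 * k) = -(k / 14) := by
    field_simp
    ring
  rw [e1, e2] at this
  linarith

theorem result :
    (∀ k : ℕ, 1 ≤ k → ∃ E : Fin (3 * k + 1) → Fin (3 * k + 1) → Prop, (∀ i, ¬ E i i) ∧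
      (3 * k + 1 : ℝ) - 1 + k / 14 ≤ spread E) ∧
    ∀ C : ℝ, ∃ n : ℕ, 2 ≤ n ∧ ∃ E : Fin n → Fin n → Prop, (∀ i, ¬ E i i) ∧ n + C < spread E := by
  have key : ∀ k : ℕ, 1 ≤ k → ∃ E : Fin (3 * k + 1) → Fin (3 * k + 1) → Prop, (∀ i, ¬ E i i) ∧
      (3 * k + 1 : ℝ) - 1 + k / 14 ≤ spread E := by
    intro k hk
    have e : Fin (3 * k + 1) ≃ Option (Fin 3 × Fin k) := Fintype.equivOfCardEq (by simp)
    refine ⟨fun i j => G k (e i) (e j), fun i => ?_, ?_⟩
    · show ¬ G k (e i) (e i)
      generalize e i = u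
      rcases u with _ | p
      · simp [G]
      · rintro ⟨h1, h2⟩
        rw [h1] at h2
        exact absurd h2 (by decide)
    · rw [spread_equiv e (G k)]
      have := G_spread k hk
      linarith
  refine ⟨key, fun C => ?_⟩
  obtain ⟨k, hk⟩ := exists_nat_gt (max 1 (14 * (C + 1)))
  have h1 : (1 : ℝ) < k := (le_max_left _ _).trans_lt hk
  have h2 : 14 * (C + 1) < k := (le_max_right _ _).trans_lt hk
  have h3 : 1 ≤ k := by exact_mod_cast h1.le
  obtain ⟨E, hE, hs⟩ := key k h3
  refine ⟨3 * k + 1, by omega, E, hE, ?_⟩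
  push_cast
  linarith

end Pool.Agent.Results.MP_df5386_co.Slope
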